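import Pool.Agent.helper84.HF.SpecH

/-! Row hf:HCH (MP_07c750_an): the chain rule. -/

set_option autoImplicit false

open Finset

namespace Pool.Agent.HF

lemma HCH_fib {α ι κ : Type} [DecidableEq ι] [DecidableEq κ] [DecidableEq (ι × κ)] (X : Finset α) (f : α → ι) (g : α → κ)
    (F : ι × κ → ℝ) : ∑ p ∈ X.image (fun x => (f x, g x)), F p =
      ∑ j ∈ X.image g, ∑ i ∈ (X.filter (fun x => g x = j)).image f, F (i, j) := by
  rw [← Finset.sum_fiberwise_of_maps_to (s := X.image (fun x => (f x, g x))) (t := X.image g) (g := fun p => p.2)]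
  · refine Finset.sum_congr rfl fun j _ => ?_
    have e : (X.image (fun x => (f x, g x))).filter (fun p => p.2 = j) =
        ((X.filter (fun x => g x = j)).image f).image (fun i => (i, j)) := by
      ext p
      constructor
      · intro hp
        rw [Finset.mem_filter, Finset.mem_image] at hp
        obtain ⟨⟨x, hx, rfl⟩, hj⟩ := hp
        rw [Finset.mem_image]
        exact ⟨f x, Finset.mem_image.mpr ⟨x, Finset.mem_filter.mpr ⟨hx, hj⟩, rfl⟩, by rw [← hj]⟩
      · intro hp
        rw [Finset.mem_image] at hp
        obtain ⟨i, hi, rfl⟩ := hp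
        rw [Finset.mem_image] at hi
        obtain ⟨x, hx, rfl⟩ := hi
        rw [Finset.mem_filter] at hx
        rw [Finset.mem_filter, Finset.mem_image]
        exact ⟨⟨x, hx.1, by rw [hx.2]⟩, rfl⟩
    rw [e, Finset.sum_image]
    intro a _ b _ hab
    exact congrArg Prod.fst hab
  · intro p hp
    rw [Finset.mem_image] at hp
    obtain ⟨x, hx, rfl⟩ := hp
    exact Finset.mem_image_of_mem g hx

lemma HCH_one {α ι : Type} [DecidableEq ι] (Z : Finset α) (f : α → ι) (hZ : Z.Nonempty) (b : ℝ) :
    ∑ i ∈ Z.image f, Real.negMulLog (b * (((Z.filter (fun x => f x = i)).card : ℝ) / Z.card)) =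
      Real.negMulLog b + b * ∑ i ∈ Z.image f, Real.negMulLog (((Z.filter (fun x => f x = i)).card : ℝ) / Z.card) := by
  have hc : (Z.card : ℝ) ≠ 0 := by
    have := Finset.card_pos.mpr hZ
    positivity
  have hs : ∑ i ∈ Z.image f, (((Z.filter (fun x => f x = i)).card : ℝ) / Z.card) = 1 := by
    rw [← Finset.sum_div]
    have : (∑ i ∈ Z.image f, ((Z.filter (fun x => f x = i)).card : ℝ)) = Z.card := by
      have h := Finset.card_eq_sum_card_image f Z
      exact_mod_cast h.symm
    rw [this, div_self hc]
  have hm : ∀ i, Real.negMulLog (b * (((Z.filter (fun x => f x = i)).card : ℝ) / Z.card)) =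
      (((Z.filter (fun x => f x = i)).card : ℝ) / Z.card) * Real.negMulLog b +
        b * Real.negMulLog (((Z.filter (fun x => f x = i)).card : ℝ) / Z.card) := fun i => Real.negMulLog_mul _ _
  rw [Finset.sum_congr rfl fun i _ => hm i, Finset.sum_add_distrib, ← Finset.sum_mul, hs, one_mul, ← Finset.mul_sum]

open Classical in
theorem HCH_proof : HCH_stmt := by
  intro α ι κ X f g hX
  have hXc : (X.card : ℝ) ≠ 0 := by
    have := Finset.card_pos.mpr hX
    positivity
  have hfib := fun F : ι × κ → ℝ => @HCH_fib α ι κ (fun a b => Classical.propDecidable _) (fun a b => Classical.propDecidable _)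
    (fun a b => Classical.propDecidable _) X f g F
  unfold H
  rw [hfib, ← Finset.sum_add_distrib]
  refine Finset.sum_congr rfl fun j hj => ?_
  have hZ : (X.filter (fun x => g x = j)).Nonempty := by
    rw [Finset.mem_image] at hj
    obtain ⟨x, hx, hxj⟩ := hj
    exact ⟨x, Finset.mem_filter.mpr ⟨hx, hxj⟩⟩
  have hZc : ((X.filter (fun x => g x = j)).card : ℝ) ≠ 0 := by
    have := Finset.card_pos.mpr hZ
    positivity
  rw [← HCH_one _ f hZ]
  refine Finset.sum_congr rfl fun i _ => ?_
  have e1 : ∀ inst : DecidablePred (fun x : α => (f x, g x) = (i, j)),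
      @Finset.filter α (fun x => (f x, g x) = (i, j)) inst X =
        (X.filter (fun x => g x = j)).filter (fun x => f x = i) := by
    intro inst
    ext x
    rw [Finset.mem_filter, Finset.mem_filter, Finset.mem_filter, Prod.mk.injEq]
    tauto
  refine congrArg Real.negMulLog ?_
  have e2 : ∀ inst : DecidablePred (fun x : α => (f x, g x) = (i, j)),
      ((@Finset.filter α (fun x => (f x, g x) = (i, j)) inst X).card : ℝ) / X.card =
      ((X.filter (fun x => g x = j)).card : ℝ) / X.card *
        ((((X.filter (fun x => g x = j)).filter (fun x => f x = i)).card : ℝ) / (X.filter (fun x => g x = j)).card) := by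
    intro inst
    rw [e1]
    field_simp
  exact e2 _

end Pool.Agent.HF
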